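import Mathlib

open MeasureTheory Set Filter Topology
open scoped ContDiff

namespace Pool.Agent.Results.MP_67b65f_an.Disproof

/-- Euclidean `n`-space. -/
abbrev E (n : ℕ) := EuclideanSpace ℝ (Fin n)

/-- The boundary of `Ω` is smooth with outer unit normal `ν`: near every boundary point `p` the
set `Ω` is given by `f < 0` with `f` of class `C^∞`, `∇f(p) ≠ 0` and `ν p = ∇f(p) / |∇f(p)|`. -/
def SmoothBoundary {n : ℕ} (Ω : Set (E n)) (ν : E n → E n) : Prop :=
  ∀ p ∈ frontier Ω, ∃ (U : Set (E n)) (f : E n → ℝ), IsOpen U ∧ p ∈ U ∧ ContDiffOn ℝ ∞ f U ∧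
    (∀ q ∈ U, q ∈ Ω ↔ f q < 0) ∧ gradient f p ≠ 0 ∧ ν p = ‖gradient f p‖⁻¹ • gradient f p

/-- `Photon Ω ν P v t q w`: the photon that starts at `P` with velocity `v` at time `0` is at time
`t` at the point `q` with velocity `w`, having moved along straight lines inside `Ω` and having
been reflected optically, and not tangentially, finitely many times at the boundary. -/
inductive Photon {n : ℕ} (Ω : Set (E n)) (ν : E n → E n) (P v : E n) :
    ℝ → E n → E n → Prop
  | start : Photon Ω ν P v 0 P v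
  | fly (t s : ℝ) (q w : E n) : Photon Ω ν P v t q w → 0 < s →
      (∀ r ∈ Ioc 0 s, q + r • w ∈ Ω) → Photon Ω ν P v (t + s) (q + s • w) w
  | reflect (t s : ℝ) (q w : E n) : Photon Ω ν P v t q w → 0 < s →
      (∀ r ∈ Ioo 0 s, q + r • w ∈ Ω) → q + s • w ∈ frontier Ω →
      inner ℝ w (ν (q + s • w)) ≠ 0 →
      Photon Ω ν P v (t + s) (q + s • w)
        (w - (2 * inner ℝ w (ν (q + s • w))) • ν (q + s • w))

/-- The time-`t` front from `P`: all positions at time `t` of photons started at `P` with unit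
speed. -/
def front {n : ℕ} (Ω : Set (E n)) (ν : E n → E n) (P : E n) (t : ℝ) : Set (E n) :=
  {q | ∃ v w : E n, ‖v‖ = 1 ∧ Photon Ω ν P v t q w}

/-- The fronts from `P` become dense: every nonempty open subset of `Ω` meets the time-`t` front
for all sufficiently large `t`. -/
def FrontsBecomeDense {n : ℕ} (Ω : Set (E n)) (ν : E n → E n) (P : E n) : Prop :=
  ∀ U : Set (E n), IsOpen U → U.Nonempty → U ⊆ Ω → ∃ T : ℝ, ∀ t ≥ T, (front Ω ν P t ∩ U).Nonempty

/-! ### The room -/

/-- Upper boundary: half ellipse with semi-axes `5` and `4`, foci `(±3, 0)`. -/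
noncomputable def g (x : ℝ) : ℝ := 4 * Real.sqrt (1 - x ^ 2 / 25)

/-- A smooth factor vanishing exactly at the foci and equal to `1` near the vertices. -/
noncomputable def phi (x : ℝ) : ℝ := Real.smoothTransition ((x ^ 2 - 9) ^ 2 / 100)

/-- The room. -/
def room : Set (E 2) := {p | -(g (p 0) * phi (p 0)) < p 1 ∧ p 1 < g (p 0)}

/-- The ellipse function. -/
noncomputable def A (p : E 2) : ℝ := p 0 ^ 2 / 25 + p 1 ^ 2 / 16 - 1

theorem g_nonneg (x : ℝ) : 0 ≤ g x := by unfold g; positivity

theorem phi_nonneg (x : ℝ) : 0 ≤ phi x := Real.smoothTransition.nonneg _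

theorem phi_le_one (x : ℝ) : phi x ≤ 1 := Real.smoothTransition.le_one _

theorem phi_three {x : ℝ} (h : |x| = 3) : phi x = 0 := by
  have h1 : x ^ 2 = 9 := by rw [← sq_abs, h]; norm_num
  unfold phi
  rw [h1]
  apply Real.smoothTransition.zero_of_nonpos
  norm_num

theorem phi_one {x : ℝ} (h : 19 ≤ x ^ 2) : phi x = 1 := by
  unfold phi
  apply Real.smoothTransition.one_of_one_le
  rw [le_div_iff₀ (by norm_num)]
  nlinarith

theorem lt_g_iff {x y : ℝ} (hy : 0 ≤ y) : y < g x ↔ x ^ 2 / 25 + y ^ 2 / 16 - 1 < 0 := by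
  unfold g
  constructor
  · intro h
    have h1 : y / 4 < Real.sqrt (1 - x ^ 2 / 25) := by linarith
    rw [Real.lt_sqrt (by positivity)] at h1
    nlinarith
  · intro h
    have h1 : y / 4 < Real.sqrt (1 - x ^ 2 / 25) := by
      rw [Real.lt_sqrt (by positivity)]
      nlinarith
    linarith

theorem mem_room {p : E 2} : p ∈ room ↔ -(g (p 0) * phi (p 0)) < p 1 ∧ p 1 < g (p 0) := Iff.rfl

theorem mem_room_of_nonneg {p : E 2} (h : 0 < p 1) : p ∈ room ↔ A p < 0 := by
  rw [mem_room, A, ← lt_g_iff h.le]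
  have := mul_nonneg (g_nonneg (p 0)) (phi_nonneg (p 0))
  constructor
  · exact fun h => h.2
  · exact fun h' => ⟨by linarith, h'⟩

theorem A_neg {p : E 2} (h : p ∈ room) : A p < 0 := by
  obtain ⟨h1, h2⟩ := h
  rcases le_or_gt 0 (p 1) with h0 | h0
  · exact (lt_g_iff h0).1 h2
  · have h3 : -(p 1) < g (p 0) := by
      have := mul_le_mul_of_nonneg_left (phi_le_one (p 0)) (g_nonneg (p 0))
      linarith
    have h4 := (lt_g_iff (by linarith : 0 ≤ -(p 1))).1 h3
    unfold A
    nlinarith

theorem not_mem_of_three {p : E 2} (h : |p 0| = 3) (h1 : p 1 ≤ 0) : p ∉ room := by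
  rintro ⟨h2, _⟩
  rw [phi_three h] at h2
  linarith

theorem room_isOpen : IsOpen room := by
  have hg : Continuous g := by unfold g; fun_prop
  have hphi : Continuous phi := by
    unfold phi
    exact Real.smoothTransition.continuous.comp (by fun_prop)
  have h1 : IsOpen {p : E 2 | -(g (p 0) * phi (p 0)) < p 1} :=
    isOpen_lt (by fun_prop) (by fun_prop)
  have h2 : IsOpen {p : E 2 | p 1 < g (p 0)} := isOpen_lt (by fun_prop) (by fun_prop)
  exact h1.inter h2

theorem room_bounded : Bornology.IsBounded room := by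
  refine (Metric.isBounded_closedBall (x := (0 : E 2)) (r := 10)).subset ?_
  intro p hp
  have h := A_neg hp
  rw [mem_closedBall_zero_iff, EuclideanSpace.norm_eq, Fin.sum_univ_two]
  apply Real.sqrt_le_iff.2
  refine ⟨by norm_num, ?_⟩
  unfold A at h
  rw [Real.norm_eq_abs, Real.norm_eq_abs, sq_abs, sq_abs]
  nlinarith [sq_nonneg (p 0), sq_nonneg (p 1)]

/-- The open upper half of the ellipse. -/
def top : Set (E 2) := {p | 0 < p 1 ∧ A p < 0}

theorem top_subset : top ⊆ room := fun _ hp => (mem_room_of_nonneg hp.1).2 hp.2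

theorem A_convex {p q : E 2} {a b : ℝ} (ha : 0 ≤ a) (hb : 0 ≤ b) (hab : a + b = 1) :
    A (a • p + b • q) ≤ a * A p + b * A q := by
  unfold A
  simp only [PiLp.add_apply, PiLp.smul_apply, smul_eq_mul]
  have hb' : b = 1 - a := by linarith
  subst hb'
  nlinarith [mul_nonneg ha hb, mul_nonneg (mul_nonneg ha hb) (sq_nonneg (p 0 - q 0)),
    mul_nonneg (mul_nonneg ha hb) (sq_nonneg (p 1 - q 1))]

theorem top_convex : Convex ℝ top := by
  intro p hp q hq a b ha hb hab
  refine ⟨?_, ?_⟩
  · simp only [PiLp.add_apply, PiLp.smul_apply, smul_eq_mul]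
    rcases ha.eq_or_lt with h | h
    · have : b = 1 := by linarith
      rw [← h, this]; linarith [hq.1]
    · nlinarith [mul_pos h hp.1, mul_nonneg hb hq.1.le]
  · refine (A_convex ha hb hab).trans_lt ?_
    rcases ha.eq_or_lt with h | h
    · have : b = 1 := by linarith
      rw [← h, this]; linarith [hq.2]
    · nlinarith [mul_neg_of_pos_of_neg h hp.2, mul_nonpos_of_nonneg_of_nonpos hb hq.2.le]

theorem room_connected : IsConnected room := by
  have hbase : (!₂[(0 : ℝ), 1] : E 2) ∈ top := by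
    refine ⟨by simp, ?_⟩
    unfold A
    simp
    norm_num
  refine ⟨⟨_, top_subset hbase⟩, ?_⟩
  apply isPreconnected_of_forall (!₂[(0 : ℝ), 1] : E 2)
  intro p hp
  have hAp := A_neg hp
  set m : E 2 := !₂[p 0, g (p 0) / 2] with hm
  have hm0 : m 0 = p 0 := by simp [hm]
  have hm1 : m 1 = g (p 0) / 2 := by simp [hm]
  have hg0 : 0 < g (p 0) := by
    have := (lt_g_iff (x := p 0) (y := 0) le_rfl).2 (by
      unfold A at hAp
      nlinarith [sq_nonneg (p 1)])
    exact this
  have hmtop : m ∈ top := by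
    refine ⟨by rw [hm1]; linarith, ?_⟩
    unfold A
    rw [← lt_g_iff (by rw [hm1]; linarith), hm0, hm1]
    linarith
  have hseg : segment ℝ p m ⊆ room := by
    rintro _ ⟨a, b, ha, hb, hab, rfl⟩
    have e0 : (a • p + b • m) 0 = p 0 := by
      simp only [PiLp.add_apply, PiLp.smul_apply, smul_eq_mul, hm0]
      rw [← add_mul, hab, one_mul]
    have e1 : (a • p + b • m) 1 = a * p 1 + b * (g (p 0) / 2) := by
      simp only [PiLp.add_apply, PiLp.smul_apply, smul_eq_mul, hm1]
    rw [mem_room, e0, e1]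
    obtain ⟨h1, h2⟩ := hp
    have h3 := mul_nonneg (g_nonneg (p 0)) (phi_nonneg (p 0))
    rcases ha.eq_or_lt with h | h
    · have : b = 1 := by linarith
      rw [← h, this]; constructor <;> linarith
    · have hb' : b = 1 - a := by linarith
      subst hb'
      constructor <;> nlinarith
  refine ⟨top ∪ segment ℝ p m, ?_, Or.inl hbase, Or.inr (left_mem_segment ℝ p m), ?_⟩
  · exact union_subset top_subset hseg
  · exact IsPreconnected.union m hmtop (right_mem_segment ℝ p m) top_convex.isPreconnected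
      (convex_segment p m).isPreconnected

/-! ### Smoothness of the boundary -/

theorem inner_two (v w : E 2) : inner ℝ v w = v 0 * w 0 + v 1 * w 1 := by
  rw [PiLp.inner_apply, Fin.sum_univ_two]
  simp [mul_comm]

theorem gradient_eq_of {f : E 2 → ℝ} {p G : E 2} {L : E 2 →L[ℝ] ℝ} (h : HasFDerivAt f L p)
    (hL : ∀ w, L w = inner ℝ G w) : gradient f p = G := by
  apply HasGradientAt.gradient
  rw [hasGradientAt_iff_hasFDerivAt]
  have : (InnerProductSpace.toDual ℝ (E 2)) G = L := by
    ext w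
    rw [InnerProductSpace.toDual_apply_apply, hL]
  rw [this]
  exact h

/-- Coordinate functional. -/
noncomputable def pr (i : Fin 2) : E 2 →L[ℝ] ℝ := EuclideanSpace.proj i

theorem pr_apply (i : Fin 2) (w : E 2) : pr i w = w i := rfl

theorem gradient_A (p : E 2) : gradient A p = !₂[2 * p 0 / 25, p 1 / 8] := by
  have h0 : HasFDerivAt (fun q : E 2 => q 0) (pr 0) p := (pr 0).hasFDerivAt
  have h1 : HasFDerivAt (fun q : E 2 => q 1) (pr 1) p := (pr 1).hasFDerivAt
  have hA : A = fun q : E 2 => 1 / 25 * q 0 ^ 2 + 1 / 16 * q 1 ^ 2 - 1 := by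
    funext q; unfold A; ring
  rw [hA]
  have h := ((((h0.pow 2).const_mul (1 / 25))).add ((h1.pow 2).const_mul (1 / 16))).sub_const 1
  refine gradient_eq_of (L := _) h ?_
  intro w
  rw [inner_two]
  simp [pr_apply]
  ring

/-- The lower boundary function. -/
noncomputable def low (x : ℝ) : ℝ := -(g x * phi x)

theorem low_contDiffAt {x : ℝ} (h : |x| < 5) : ContDiffAt ℝ ∞ low x := by
  have h1 : 1 - x ^ 2 / 25 ≠ 0 := by
    have : x ^ 2 < 25 := by
      rw [← sq_abs]
      nlinarith [abs_nonneg x]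
    intro h2
    linarith
  unfold low g phi
  apply ContDiffAt.neg
  apply ContDiffAt.mul
  · apply ContDiffAt.mul contDiffAt_const
    exact ContDiffAt.sqrt (f := fun x : ℝ => 1 - x ^ 2 / 25) (by fun_prop) h1
  · exact (Real.smoothTransition.contDiff.comp (by fun_prop)).contDiffAt

/-- The normal field. -/
noncomputable def nu (p : E 2) : E 2 :=
  if 0 < p 1 ∨ 5 ≤ |p 0| then ‖(!₂[2 * p 0 / 25, p 1 / 8] : E 2)‖⁻¹ • !₂[2 * p 0 / 25, p 1 / 8]
  else ‖(!₂[deriv low (p 0), -1] : E 2)‖⁻¹ • !₂[deriv low (p 0), -1]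

theorem room_smooth : SmoothBoundary room nu := by
  intro p _
  by_cases hp1 : 0 < p 1
  · refine ⟨{q | 0 < q 1}, A, isOpen_lt continuous_const (by fun_prop), hp1, ?_, ?_, ?_, ?_⟩
    · unfold A; fun_prop
    · intro q hq
      exact mem_room_of_nonneg hq
    · rw [gradient_A]
      intro h
      have := congrArg (fun z : E 2 => z 1) h
      simp at this
      linarith
    · rw [gradient_A, nu, if_pos (Or.inl hp1)]
  by_cases hp0 : 5 ≤ |p 0|
  · have hp0' : 25 ≤ p 0 ^ 2 := by rw [← sq_abs]; nlinarith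
    refine ⟨{q | 19 < q 0 ^ 2}, A, isOpen_lt continuous_const (by fun_prop), ?_, ?_, ?_, ?_, ?_⟩
    · show 19 < p 0 ^ 2
      linarith
    · unfold A; fun_prop
    · intro q hq
      have hq' : 19 < q 0 ^ 2 := hq
      constructor
      · exact A_neg
      · intro h
        rw [mem_room, phi_one hq'.le, mul_one]
        unfold A at h
        constructor
        · rcases le_or_gt 0 (q 1) with h0 | h0
          · have := (lt_g_iff (x := q 0) h0).2 h
            linarith [g_nonneg (q 0)]
          · have := (lt_g_iff (x := q 0) (by linarith : 0 ≤ -(q 1))).2 (by linarith [neg_sq (q 1)])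
            linarith
        · rcases le_or_gt 0 (q 1) with h0 | h0
          · exact (lt_g_iff (x := q 0) h0).2 h
          · linarith [g_nonneg (q 0)]
    · rw [gradient_A]
      intro h
      have := congrArg (fun z : E 2 => z 0) h
      simp at this
      rw [this] at hp0'
      norm_num at hp0'
    · rw [gradient_A, nu, if_pos (Or.inr hp0)]
  · push Not at hp1 hp0
    have hg : Continuous g := by unfold g; fun_prop
    have hgrad : gradient (fun q : E 2 => low (q 0) - q 1) p = !₂[deriv low (p 0), -1] := by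
      have h0 : HasFDerivAt (fun q : E 2 => q 0) (pr 0) p := (pr 0).hasFDerivAt
      have h1 : HasFDerivAt (fun q : E 2 => q 1) (pr 1) p := (pr 1).hasFDerivAt
      have hl : HasDerivAt low (deriv low (p 0)) (p 0) :=
        ((low_contDiffAt hp0).differentiableAt (by simp)).hasDerivAt
      have h := (hl.comp_hasFDerivAt p h0).sub h1
      refine gradient_eq_of (L := _) h ?_
      intro w
      rw [inner_two]
      simp [pr_apply]
      ring
    refine ⟨{q | |q 0| < 5 ∧ q 1 < g (q 0)}, fun q => low (q 0) - q 1, ?_, ⟨hp0, ?_⟩, ?_, ?_, ?_,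
      ?_⟩
    · have o1 : IsOpen {q : E 2 | |q 0| < 5} := isOpen_lt (by fun_prop) continuous_const
      have o2 : IsOpen {q : E 2 | q 1 < g (q 0)} := isOpen_lt (by fun_prop) (by fun_prop)
      exact o1.inter o2
    · have : 0 < g (p 0) := by
        rw [lt_g_iff le_rfl]
        have : p 0 ^ 2 < 25 := by rw [← sq_abs]; nlinarith [abs_nonneg (p 0)]
        linarith
      linarith
    · intro q hq
      apply ContDiffAt.contDiffWithinAt
      refine ContDiffAt.sub (f := fun q : E 2 => low (q 0)) (g := fun q : E 2 => q 1) ?_ ?_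
      · exact ContDiffAt.comp (g := low) (f := fun q : E 2 => q 0) q (low_contDiffAt hq.1)
          (by fun_prop)
      · fun_prop
    · intro q hq
      rw [mem_room]
      constructor
      · intro h; unfold low; linarith [h.1]
      · intro h; unfold low at h; exact ⟨by linarith, hq.2⟩
    · rw [hgrad]
      intro h
      have := congrArg (fun z : E 2 => z 1) h
      simp at this
    · rw [hgrad, nu, if_neg]
      push Not
      exact ⟨hp1, hp0⟩

/-! ### The dynamics -/

/-- Cross product of `(3,0) - p` with `w`. -/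
def cp (p w : E 2) : ℝ := (3 - p 0) * w 1 + p 1 * w 0

/-- Cross product of `(-3,0) - p` with `w`. -/
def cm (p w : E 2) : ℝ := (-3 - p 0) * w 1 + p 1 * w 0

/-- States which never enter the ears. -/
def Good (p w : E 2) : Prop :=
  (p 1 ≤ 0 ∧ |p 0| < 3) ∨ (0 < p 1 ∧ w 1 < 0 ∧ cp p w ≤ 0 ∧ 0 ≤ cm p w) ∨
    (0 ≤ p 1 ∧ 0 < w 1 ∧ 0 ≤ cp p w ∧ cm p w ≤ 0)

theorem coord (q w : E 2) (r : ℝ) (i : Fin 2) : (q + r • w) i = q i + r * w i := by
  simp only [PiLp.add_apply, PiLp.smul_apply, smul_eq_mul]

theorem cp_fly (q w : E 2) (r : ℝ) : cp (q + r • w) w = cp q w := by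
  unfold cp; rw [coord, coord]; ring

theorem cm_fly (q w : E 2) (r : ℝ) : cm (q + r • w) w = cm q w := by
  unfold cm; rw [coord, coord]; ring

theorem cp_cross {q w : E 2} {r : ℝ} (h : r * w 1 = -q 1) :
    cp q w = (3 - (q 0 + r * w 0)) * w 1 := by
  unfold cp
  rw [show q 1 = -(r * w 1) by linarith]; ring

theorem cm_cross {q w : E 2} {r : ℝ} (h : r * w 1 = -q 1) :
    cm q w = (-3 - (q 0 + r * w 0)) * w 1 := by
  unfold cm
  rw [show q 1 = -(r * w 1) by linarith]; ring

theorem cross_abs {q w : E 2} {r : ℝ} (h : r * w 1 = -q 1) (hw : w 1 < 0) (h3 : cp q w ≤ 0)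
    (h4 : 0 ≤ cm q w) : |(q + r • w) 0| ≤ 3 := by
  rw [cp_cross h] at h3
  rw [cm_cross h] at h4
  rw [coord, abs_le]
  constructor
  · by_contra hcon
    push Not at hcon
    have := mul_neg_of_pos_of_neg (show 0 < -3 - (q 0 + r * w 0) by linarith) hw
    linarith
  · by_contra hcon
    push Not at hcon
    have := mul_pos_of_neg_of_neg (show 3 - (q 0 + r * w 0) < 0 by linarith) hw
    linarith

theorem stay {q w : E 2} {r0 s : ℝ} (hr : r0 ≤ s) (h0 : |(q + r0 • w) 0| < 3)
    (hroom : ∀ r ∈ Ioc r0 s, q + r • w ∈ room) (hneg : ∀ r ∈ Ioc r0 s, (q + r • w) 1 ≤ 0) :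
    |(q + s • w) 0| < 3 := by
  by_contra hcon
  push Not at hcon
  have hc : ContinuousOn (fun r : ℝ => |(q + r • w) 0|) (Icc r0 s) := by
    apply Continuous.continuousOn
    fun_prop
  obtain ⟨r, hr1, hr2⟩ := intermediate_value_Icc hr hc ⟨h0.le, hcon⟩
  have hr3 : |(q + r • w) 0| = 3 := hr2
  have hne : r ≠ r0 := by
    rintro rfl
    rw [hr3] at h0
    exact lt_irrefl _ h0
  have hmem : r ∈ Ioc r0 s := ⟨lt_of_le_of_ne hr1.1 (Ne.symm hne), hr1.2⟩
  exact not_mem_of_three hr3 (hneg r hmem) (hroom r hmem)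

theorem fly_good {q w : E 2} {s : ℝ} (hq : Good q w) (hs : 0 < s)
    (hroom : ∀ r ∈ Ioc 0 s, q + r • w ∈ room) : Good (q + s • w) w := by
  rcases hq with ⟨h1, h2⟩ | ⟨h1, h2, h3, h4⟩ | ⟨h1, h2, h3, h4⟩
  · by_cases h5 : (q + s • w) 1 ≤ 0
    · left
      refine ⟨h5, stay hs.le (by simpa using h2) hroom ?_⟩
      intro r hr
      rw [coord] at h5 ⊢
      rcases le_or_gt (w 1) 0 with h | h
      · nlinarith [hr.1]
      · nlinarith [hr.1, hr.2, mul_nonneg h.le (sub_nonneg.2 hr.2)]
    · push Not at h5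
      right; right
      rw [coord] at h5
      have hw : 0 < w 1 := by
        by_contra hcon
        push Not at hcon
        nlinarith
      set r0 : ℝ := -q 1 / w 1 with hr0
      have hr0' : r0 * w 1 = -q 1 := by rw [hr0]; field_simp
      have hr00 : 0 ≤ r0 := div_nonneg (by linarith) hw.le
      have hr0s : r0 ≤ s := by
        rw [hr0, div_le_iff₀ hw]; linarith
      have h6 : |(q + r0 • w) 0| < 3 := by
        apply stay hr00 (by simpa using h2) (fun r hr => hroom r ⟨hr.1, hr.2.trans hr0s⟩)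
        intro r hr
        rw [coord]
        nlinarith [hr.2, mul_nonneg hw.le (sub_nonneg.2 hr.2)]
      rw [coord, abs_lt] at h6
      refine ⟨by rw [coord]; exact h5.le, hw, ?_, ?_⟩
      · rw [cp_fly, cp_cross hr0']
        exact mul_nonneg (by linarith) hw.le
      · rw [cm_fly, cm_cross hr0']
        exact mul_nonpos_of_nonpos_of_nonneg (by linarith) hw.le
  · by_cases h5 : (q + s • w) 1 ≤ 0
    · left
      rw [coord] at h5
      set r0 : ℝ := q 1 / (-w 1) with hr0
      have hw : 0 < -w 1 := by linarith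
      have hr0' : r0 * w 1 = -q 1 := by
        have : r0 * (-w 1) = q 1 := by rw [hr0]; exact div_mul_cancel₀ _ hw.ne'
        linarith
      have hr00 : 0 < r0 := div_pos h1 hw
      have hr0s : r0 ≤ s := by
        rw [hr0, div_le_iff₀ hw]; linarith
      have h6 : |(q + r0 • w) 0| ≤ 3 := cross_abs hr0' h2 h3 h4
      have h7 : |(q + r0 • w) 0| < 3 := by
        refine lt_of_le_of_ne h6 fun h => ?_
        refine not_mem_of_three h ?_ (hroom r0 ⟨hr00, hr0s⟩)
        rw [coord]; linarith
      refine ⟨by rw [coord]; exact h5, ?_⟩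
      apply stay hr0s h7 (fun r hr => hroom r ⟨hr00.trans hr.1, hr.2⟩)
      intro r hr
      rw [coord]
      nlinarith [hr.1, mul_nonneg hw.le (sub_nonneg.2 hr.1.le)]
    · push Not at h5
      right; left
      exact ⟨h5, h2, by rw [cp_fly]; exact h3, by rw [cm_fly]; exact h4⟩
  · right; right
    exact ⟨by rw [coord]; positivity, h2, by rw [cp_fly]; exact h3, by rw [cm_fly]; exact h4⟩

theorem low_nonpos (x : ℝ) : low x ≤ 0 := by
  unfold low
  have := mul_nonneg (g_nonneg x) (phi_nonneg x)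
  linarith

theorem low_three {x : ℝ} (h : |x| = 3) : low x = 0 := by
  unfold low; rw [phi_three h]; simp

theorem deriv_low_three {x : ℝ} (h : |x| = 3) : deriv low x = 0 := by
  have : IsLocalMax low x := by
    apply Filter.Eventually.of_forall
    intro y
    rw [low_three h]
    exact low_nonpos y
  exact this.deriv_eq_zero

theorem focus_no {p u : E 2} {s : ℝ} (hp : |p 0| = 3) (hp1 : p 1 = 0) (hu : u 1 < 0) (hs : 0 < s)
    (h : ∀ r ∈ Ioo 0 s, p + r • u ∈ room) : False := by
  have hl : HasDerivAt low 0 (p 0) := by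
    have h1 : DifferentiableAt ℝ low (p 0) :=
      (low_contDiffAt (by rw [hp]; norm_num)).differentiableAt (by simp)
    have h2 := h1.hasDerivAt
    rwa [deriv_low_three hp] at h2
  have hF : HasDerivAt (fun r : ℝ => low (p 0 + r * u 0) - r * u 1) (-u 1) 0 := by
    have h1 : HasDerivAt (fun r : ℝ => p 0 + r * u 0) (u 0) 0 := by
      have := ((hasDerivAt_id (0 : ℝ)).mul_const (u 0)).const_add (p 0)
      simpa using this
    have h2 : HasDerivAt (fun r : ℝ => low (p 0 + r * u 0)) (0 * u 0) 0 := by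
      have hl' : HasDerivAt low 0 (p 0 + 0 * u 0) := by simpa using hl
      exact HasDerivAt.comp (h₂ := low) (h := fun r : ℝ => p 0 + r * u 0) 0 hl' h1
    have h3 : HasDerivAt (fun r : ℝ => r * u 1) (u 1) 0 := by
      simpa using (hasDerivAt_id (0 : ℝ)).mul_const (u 1)
    have h4 := h2.sub h3
    rw [zero_mul, zero_sub] at h4
    exact h4
  have hslope := hF.tendsto_slope_zero_right
  have hev := (tendsto_order.1 hslope).1 0 (by linarith)
  have hev2 : ∀ᶠ r : ℝ in 𝓝[>] 0, r < s := (eventually_lt_nhds hs).filter_mono nhdsWithin_le_nhds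
  obtain ⟨r, ⟨h1, h2⟩, h3⟩ := ((hev.and hev2).and self_mem_nhdsWithin).exists
  have h3' : 0 < r := h3
  have h4 := (h r ⟨h3', h2⟩).1
  rw [coord, coord, hp1] at h4
  have h5 : low (p 0 + r * u 0) < r * u 1 := by unfold low; linarith
  simp only [zero_add, zero_mul, add_zero, sub_zero, smul_eq_mul] at h1
  rw [low_three hp, sub_zero] at h1
  have h6 : low (p 0 + r * u 0) - r * u 1 < 0 := by linarith
  have h7 : r⁻¹ * (low (p 0 + r * u 0) - r * u 1) < 0 := mul_neg_of_pos_of_neg (by positivity) h6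
  linarith

theorem closure_room {p : E 2} (hp : p ∈ closure room) : low (p 0) ≤ p 1 ∧ A p ≤ 0 := by
  have hg : Continuous g := by unfold g; fun_prop
  have hphi : Continuous phi := by
    unfold phi
    exact Real.smoothTransition.continuous.comp (by fun_prop)
  have hlow : Continuous low := by unfold low; fun_prop
  have hA : Continuous A := by unfold A; fun_prop
  have h1 : closure room ⊆ {p : E 2 | low (p 0) ≤ p 1} ∩ {p | A p ≤ 0} := by
    apply closure_minimal
    · intro q hq
      exact ⟨by show low (q 0) ≤ q 1; unfold low; exact hq.1.le, (A_neg hq).le⟩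
    · exact (isClosed_le (by fun_prop) (by fun_prop)).inter (isClosed_le hA continuous_const)
  exact h1 hp

theorem reflect_coord {B w : E 2} (hB : 0 < B 1) (i : Fin 2) :
    (w - (2 * inner ℝ w (nu B)) • nu B) i = w i - 2 * (16 * B 0 * w 0 + 25 * B 1 * w 1) *
      (![16 * B 0, 25 * B 1] i) / ((16 * B 0) ^ 2 + (25 * B 1) ^ 2) := by
  have hnu : nu B = ‖(!₂[2 * B 0 / 25, B 1 / 8] : E 2)‖⁻¹ • !₂[2 * B 0 / 25, B 1 / 8] := by
    rw [nu, if_pos (Or.inl hB)]
  set G : E 2 := !₂[2 * B 0 / 25, B 1 / 8] with hG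
  have hG0 : G 0 = 2 * B 0 / 25 := by simp [hG]
  have hG1 : G 1 = B 1 / 8 := by simp [hG]
  have hn : ‖G‖ ^ 2 = ((16 * B 0) ^ 2 + (25 * B 1) ^ 2) / 40000 := by
    rw [← real_inner_self_eq_norm_sq, inner_two, hG0, hG1]; ring
  have hD : 0 < (16 * B 0) ^ 2 + (25 * B 1) ^ 2 := by positivity
  have hn0 : ‖G‖ ≠ 0 := by
    intro h
    rw [h] at hn
    have : (0 : ℝ) < ((16 * B 0) ^ 2 + (25 * B 1) ^ 2) / 40000 := by positivity
    rw [← hn] at this
    norm_num at this
  rw [hnu, inner_smul_right, inner_two, hG0, hG1]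
  simp only [PiLp.sub_apply, PiLp.smul_apply, smul_eq_mul]
  have e1 : ∀ c : ℝ, 2 * (‖G‖⁻¹ * (w 0 * (2 * B 0 / 25) + w 1 * (B 1 / 8))) * (‖G‖⁻¹ * c) =
      2 * (w 0 * (2 * B 0 / 25) + w 1 * (B 1 / 8)) * c / ‖G‖ ^ 2 := by
    intro c; field_simp
  rw [e1, hn]
  fin_cases i
  · simp only [Fin.zero_eta, Matrix.cons_val_zero, hG0]
    field_simp
    ring
  · simp only [Fin.mk_one, Matrix.cons_val_one, Matrix.cons_val_fin_one, hG1]
    field_simp
    ring

/-- Focal property of the ellipse. -/
theorem focal {B w : E 2} (hB : 0 < B 1) (hA : A B = 0) (hw : 0 < w 1) (h3 : 0 ≤ cp B w)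
    (h4 : cm B w ≤ 0) : Good B (w - (2 * inner ℝ w (nu B)) • nu B) := by
  set w' : E 2 := w - (2 * inner ℝ w (nu B)) • nu B with hw'
  have e0 := reflect_coord (w := w) hB 0
  have e1 := reflect_coord (w := w) hB 1
  rw [← hw'] at e0 e1
  simp only [Matrix.cons_val_zero, Matrix.cons_val_one, Matrix.cons_val_fin_one] at e0 e1
  set x := B 0 with hx
  set y := B 1 with hy
  set D : ℝ := (16 * x) ^ 2 + (25 * y) ^ 2 with hD
  have hD0 : 0 < D := by positivity
  have hell : 16 * x ^ 2 + 25 * y ^ 2 - 400 = 0 := by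
    have : x ^ 2 / 25 + y ^ 2 / 16 - 1 = 0 := hA
    linarith
  have hx5 : x ^ 2 ≤ 25 := by nlinarith [sq_nonneg y]
  have hx1 : 0 < 25 - 3 * x := by nlinarith
  have hx2 : 0 < 25 + 3 * x := by nlinarith
  have f0 : D * w' 0 = D * w 0 - 2 * (16 * x * w 0 + 25 * y * w 1) * (16 * x) := by
    rw [e0]; field_simp
  have f1 : D * w' 1 = D * w 1 - 2 * (16 * x * w 0 + 25 * y * w 1) * (25 * y) := by
    rw [e1]; field_simp
  have i1 : cm B w' * (25 - 3 * x) = cp B w * (25 + 3 * x) := by
    have : D * (cm B w' * (25 - 3 * x)) = D * (cp B w * (25 + 3 * x)) := by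
      unfold cm cp
      rw [← hx, ← hy]
      have e : D * (((-3 - x) * w' 1 + y * w' 0) * (25 - 3 * x)) =
          ((-3 - x) * (D * w' 1) + y * (D * w' 0)) * (25 - 3 * x) := by ring
      rw [e, f0, f1, hD]
      linear_combination (6 * w 1 * (25 - 3 * x) * (25 + 3 * x)
        + 25 * (25 - 3 * x) * ((-3 - x) * w 1 + y * w 0)
        - 25 * (25 + 3 * x) * ((3 - x) * w 1 + y * w 0)) * hell
    exact mul_left_cancel₀ hD0.ne' this
  have i2 : cp B w' * (25 + 3 * x) = cm B w * (25 - 3 * x) := by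
    have : D * (cp B w' * (25 + 3 * x)) = D * (cm B w * (25 - 3 * x)) := by
      unfold cm cp
      rw [← hx, ← hy]
      have e : D * (((3 - x) * w' 1 + y * w' 0) * (25 + 3 * x)) =
          ((3 - x) * (D * w' 1) + y * (D * w' 0)) * (25 + 3 * x) := by ring
      rw [e, f0, f1, hD]
      linear_combination (-6 * w 1 * (25 - 3 * x) * (25 + 3 * x)
        + 25 * (25 + 3 * x) * ((3 - x) * w 1 + y * w 0)
        - 25 * (25 - 3 * x) * ((-3 - x) * w 1 + y * w 0)) * hell
    exact mul_left_cancel₀ hD0.ne' this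
  have j1 : 0 ≤ cm B w' := by
    have : 0 ≤ cm B w' * (25 - 3 * x) := by rw [i1]; exact mul_nonneg h3 hx2.le
    exact nonneg_of_mul_nonneg_left this hx1
  have j2 : cp B w' ≤ 0 := by
    have : cp B w' * (25 + 3 * x) ≤ 0 := by
      rw [i2]; exact mul_nonpos_of_nonpos_of_nonneg h4 hx1.le
    exact nonpos_of_mul_nonpos_left this hx2
  have hnorm : w' 0 ^ 2 + w' 1 ^ 2 = w 0 ^ 2 + w 1 ^ 2 := by
    have : D ^ 2 * (w' 0 ^ 2 + w' 1 ^ 2) = D ^ 2 * (w 0 ^ 2 + w 1 ^ 2) := by
      have e : D ^ 2 * (w' 0 ^ 2 + w' 1 ^ 2) = (D * w' 0) ^ 2 + (D * w' 1) ^ 2 := by ring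
      rw [e, f0, f1, hD]
      ring
    exact mul_left_cancel₀ (by positivity) this
  have j3 : w' 1 < 0 := by
    have k1 : w' 1 ≤ 0 := by
      unfold cm at j1
      unfold cp at j2
      nlinarith
    refine lt_of_le_of_ne k1 fun h => ?_
    unfold cm at j1
    unfold cp at j2
    rw [h] at j1 j2
    rw [← hy] at j1 j2
    have k2 : w' 0 = 0 := by
      have : y * w' 0 = 0 := by linarith
      rcases mul_eq_zero.1 this with h | h
      · exact absurd h hB.ne'
      · exact h
    rw [h, k2] at hnorm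
    nlinarith [sq_nonneg (w 0)]
  exact Or.inr (Or.inl ⟨hB, j3, j2, j1⟩)

theorem reflect_good {q w : E 2} {s : ℝ} (hq : Good q w) (hs : 0 < s)
    (hroom : ∀ r ∈ Ioo 0 s, q + r • w ∈ room) (hfr : q + s • w ∈ frontier room)
    (hnt : inner ℝ w (nu (q + s • w)) ≠ 0) :
    Good (q + s • w) (w - (2 * inner ℝ w (nu (q + s • w))) • nu (q + s • w)) := by
  set B : E 2 := q + s • w with hB
  have hgood : ∀ r ∈ Ioo 0 s, Good (q + r • w) w := fun r hr =>
    fly_good hq hr.1 fun r' hr' => hroom r' ⟨hr'.1, hr'.2.trans_lt hr.2⟩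
  have hcl := closure_room hfr.1
  have hnot : B ∉ room := by
    intro h
    exact hfr.2 (by rw [room_isOpen.interior_eq]; exact h)
  have hlim : ∀ i : Fin 2, Tendsto (fun r : ℝ => (q + r • w) i) (𝓝[<] s) (𝓝 (B i)) := by
    intro i
    have : Continuous (fun r : ℝ => (q + r • w) i) := by fun_prop
    exact (this.tendsto s).mono_left nhdsWithin_le_nhds
  have hev : ∀ᶠ r in 𝓝[<] s, r ∈ Ioo 0 s := by
    have h1 : ∀ᶠ r in 𝓝[<] s, 0 < r := (eventually_gt_nhds hs).filter_mono nhdsWithin_le_nhds
    filter_upwards [h1, self_mem_nhdsWithin] with r h1 h2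
    exact ⟨h1, h2⟩
  -- in all cases with nonpositive height the point is between the foci
  have habs : B 1 ≤ 0 → |B 0| ≤ 3 := by
    intro hB1
    have key : ∀ᶠ r in 𝓝[<] s, |(q + r • w) 0| < 3 ∨ |B 0| ≤ 3 := by
      filter_upwards [hev] with r hr
      rcases hgood r hr with ⟨h1, h2⟩ | ⟨h1, h2, h3, h4⟩ | ⟨h1, h2, h3, h4⟩
      · left; exact h2
      · right
        rw [cp_fly] at h3
        rw [cm_fly] at h4
        have h5 : cp B w ≤ 0 := by rw [hB, cp_fly]; exact h3
        have h6 : 0 ≤ cm B w := by rw [hB, cm_fly]; exact h4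
        -- the crossing point lies between the foci; `B` has height zero or lies below
        rw [coord] at h1
        have hB1' : q 1 + s * w 1 ≤ 0 := by rw [hB, coord] at hB1; exact hB1
        have hcont : ∃ r' ∈ Ioc r s, (q + r' • w) 1 = 0 := by
          have hw0 : w 1 ≠ 0 := h2.ne
          refine ⟨-q 1 / w 1, ⟨?_, ?_⟩, ?_⟩
          · rw [lt_div_iff_of_neg h2]; linarith
          · rw [div_le_iff_of_neg h2]; linarith
          · rw [coord, div_mul_cancel₀ _ hw0]; ring
        obtain ⟨r', hr', hr'1⟩ := hcont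
        rcases hr'.2.eq_or_lt with he | hlt
        · rw [he, ← hB] at hr'1
          unfold cp at h5
          unfold cm at h6
          rw [hr'1] at h5 h6
          rw [abs_le]
          constructor <;> nlinarith
        · have h7 : |(q + r' • w) 0| ≤ 3 := by
            rw [← cp_fly q w r'] at h3
            rw [← cm_fly q w r'] at h4
            unfold cp at h3
            unfold cm at h4
            rw [hr'1] at h3 h4
            rw [abs_le]
            constructor <;> nlinarith
          have h8 : |(q + r' • w) 0| < 3 := by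
            refine lt_of_le_of_ne h7 fun h => ?_
            exact not_mem_of_three h hr'1.le (hroom r' ⟨hr.1.trans hr'.1, hlt⟩)
          have h9 : ∀ r'' ∈ Ioo r' s, |(q + r'' • w) 0| < 3 := by
            intro r'' hr''
            apply stay hr''.1.le h8
            · intro ρ hρ
              exact hroom ρ ⟨(hr.1.trans hr'.1).trans hρ.1, hρ.2.trans_lt hr''.2⟩
            · intro ρ hρ
              rw [coord] at hr'1 ⊢
              nlinarith [hρ.1]
          refine le_of_tendsto ((hlim 0).abs) ?_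
          have h10 : ∀ᶠ ρ in 𝓝[<] s, r' < ρ :=
            (eventually_gt_nhds hlt).filter_mono nhdsWithin_le_nhds
          filter_upwards [h10, self_mem_nhdsWithin] with ρ h11 h12
          exact (h9 ρ ⟨h11, h12⟩).le
      · exfalso
        rw [coord] at h1
        rw [hB, coord] at hB1
        nlinarith [hr.2]
    by_cases hcase : |B 0| ≤ 3
    · exact hcase
    · refine le_of_tendsto ((hlim 0).abs) ?_
      filter_upwards [key] with r hr
      rcases hr with h | h
      · exact h.le
      · exact absurd h hcase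
  rcases lt_trichotomy (B 1) 0 with h | h | h
  · left
    refine ⟨h.le, lt_of_le_of_ne (habs h.le) fun h3 => ?_⟩
    have := hcl.1
    rw [low_three h3] at this
    linarith
  · by_cases h3 : |B 0| = 3
    · -- at a focus
      right; right
      have hnuB : nu B = ‖(!₂[(0 : ℝ), -1] : E 2)‖⁻¹ • !₂[(0 : ℝ), -1] := by
        rw [nu, if_neg, deriv_low_three h3]
        push Not
        exact ⟨h.le, by rw [h3]; norm_num⟩
      have hnorm : ‖(!₂[(0 : ℝ), -1] : E 2)‖ = 1 := by
        rw [EuclideanSpace.norm_eq, Fin.sum_univ_two]; simp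
      rw [hnorm, inv_one, one_smul] at hnuB
      rw [hnuB] at hnt ⊢
      have hin : inner ℝ w (!₂[(0 : ℝ), -1] : E 2) = -w 1 := by
        rw [inner_two]; simp
      rw [hin] at hnt ⊢
      have hw1 : w 1 < 0 := by
        rcases lt_trichotomy (w 1) 0 with h4 | h4 | h4
        · exact h4
        · exact absurd (by rw [h4]; ring) hnt
        · exfalso
          refine focus_no (p := B) (u := -w) h3 h (by simpa using h4) hs ?_
          intro r hr
          have : B + r • (-w) = q + (s - r) • w := by rw [hB]; module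
          rw [this]
          exact hroom _ ⟨by linarith [hr.2], by linarith [hr.1]⟩
      have c0 : (w - (2 * -w 1) • (!₂[(0 : ℝ), -1] : E 2)) 1 = -w 1 := by
        simp only [PiLp.sub_apply, PiLp.smul_apply, smul_eq_mul]
        simp
        ring
      rw [abs_eq (by norm_num)] at h3
      refine ⟨h.ge, by rw [c0]; linarith, ?_, ?_⟩
      · unfold cp; rw [c0, h]
        rcases h3 with h3 | h3 <;> rw [h3] <;> nlinarith
      · unfold cm; rw [c0, h]
        rcases h3 with h3 | h3 <;> rw [h3] <;> nlinarith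
    · left
      exact ⟨h.le, lt_of_le_of_ne (habs h.le) h3⟩
  · -- on the half ellipse
    have hA : A B = 0 := by
      apply le_antisymm hcl.2
      by_contra hcon
      push Not at hcon
      exact hnot ((mem_room_of_nonneg h).2 hcon)
    have hpos : ∀ᶠ r in 𝓝[<] s, 0 < (q + r • w) 1 := (tendsto_order.1 (hlim 1)).1 0 h
    obtain ⟨r, hr, hr1⟩ := (hev.and hpos).exists
    rcases hgood r hr with ⟨h1, _⟩ | ⟨h1, h2, h3, h4⟩ | ⟨h1, h2, h3, h4⟩
    · linarith
    · exfalso
      -- the photon moves down towards the segment between the foci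
      set p : E 2 := q + r • w with hp
      have hAp : A p < 0 := A_neg (hroom r hr)
      set ρ : ℝ := p 1 / (-w 1) with hρ
      have hw : 0 < -w 1 := by linarith
      have hρ0 : 0 < ρ := div_pos h1 hw
      have hρw : ρ * w 1 = -p 1 := by
        have : ρ * (-w 1) = p 1 := by rw [hρ]; exact div_mul_cancel₀ _ hw.ne'
        linarith
      have hBp : B = p + (s - r) • w := by rw [hB, hp]; module
      have hX : |(p + ρ • w) 0| ≤ 3 := cross_abs hρw h2 h3 h4
      have hAX : A (p + ρ • w) < 0 := by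
        unfold A
        have : (p + ρ • w) 1 = 0 := by rw [coord]; linarith
        rw [this]
        have h9 : (p + ρ • w) 0 ^ 2 ≤ 9 := by
          rw [← sq_abs]; nlinarith [abs_nonneg ((p + ρ • w) 0)]
        linarith
      have hlt : s - r < ρ := by
        rw [hρ, lt_div_iff₀ hw]
        rw [hBp, coord] at h
        linarith
      have hBc : B = (1 - (s - r) / ρ) • p + ((s - r) / ρ) • (p + ρ • w) := by
        have e : ((s - r) / ρ) * ρ = s - r := div_mul_cancel₀ _ hρ0.ne'
        calc B = p + (s - r) • w := hBp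
          _ = p + (((s - r) / ρ) * ρ) • w := by rw [e]
          _ = _ := by module
      have hl0 : 0 < (s - r) / ρ := div_pos (by linarith [hr.2]) hρ0
      have hl1 : (s - r) / ρ < 1 := (div_lt_one hρ0).2 hlt
      have := A_convex (p := p) (q := p + ρ • w) (a := 1 - (s - r) / ρ) (b := (s - r) / ρ)
        (by linarith) hl0.le (by ring)
      rw [← hBc, hA] at this
      nlinarith [mul_pos (sub_pos.2 hl1) (neg_pos.2 hAp), mul_pos hl0 (neg_pos.2 hAX)]
    · apply focal h hA h2
      · rw [hB, cp_fly]; rw [cp_fly] at h3; exact h3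
      · rw [hB, cm_fly]; rw [cm_fly] at h4; exact h4

theorem photon_good {P v : E 2} (hP : Good P v) {t : ℝ} {q w : E 2}
    (h : Photon room nu P v t q w) : Good q w := by
  induction h with
  | start => exact hP
  | fly t s q w _ hs hroom ih => exact fly_good ih hs hroom
  | reflect t s q w _ hs hroom hfr hnt ih => exact reflect_good ih hs hroom hfr hnt

/-- **Q1 is false.**  There are a bounded plane domain with smooth boundary, a nonempty open set
`W` of starting points and a nonempty open set `U` in the domain such that no front from a point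
of `W` ever meets `U`; in particular the set of points whose fronts do not become dense has
positive measure. -/
theorem result : ∃ (Ω : Set (E 2)) (ν : E 2 → E 2),
    IsOpen Ω ∧ IsConnected Ω ∧ Bornology.IsBounded Ω ∧ SmoothBoundary Ω ν ∧
    (∃ W U : Set (E 2), IsOpen W ∧ W.Nonempty ∧ W ⊆ Ω ∧ IsOpen U ∧ U.Nonempty ∧ U ⊆ Ω ∧
      ∀ P ∈ W, ∀ t : ℝ, front Ω ν P t ∩ U = ∅) ∧
    0 < volume {P ∈ Ω | ¬ FrontsBecomeDense Ω ν P} := by
  set W : Set (E 2) := {p | p ∈ room ∧ p 1 < 0 ∧ |p 0| < 3} with hW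
  set U : Set (E 2) := {p | p ∈ room ∧ p 1 < 0 ∧ 3 < p 0} with hU
  have o1 : IsOpen {p : E 2 | p 1 < 0} := isOpen_lt (by fun_prop) continuous_const
  have o2 : IsOpen {p : E 2 | |p 0| < 3} := isOpen_lt (by fun_prop) continuous_const
  have o3 : IsOpen {p : E 2 | 3 < p 0} := isOpen_lt continuous_const (by fun_prop)
  have hWo : IsOpen W := room_isOpen.inter (o1.inter o2)
  have hUo : IsOpen U := room_isOpen.inter (o1.inter o3)
  have hWne : W.Nonempty := by
    have hg : g 0 = 4 := by unfold g; simp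
    have hphi : 0 < phi 0 := by
      unfold phi
      apply Real.smoothTransition.pos_of_pos
      norm_num
    refine ⟨!₂[(0 : ℝ), -(2 * phi 0)], ?_, by simpa using hphi, by simp⟩
    rw [mem_room]
    simp [hg]
    constructor <;> linarith
  have hUne : U.Nonempty := by
    refine ⟨!₂[(9 / 2 : ℝ), -1], ?_, by simp, by simp; norm_num⟩
    rw [mem_room]
    have hg : 1 < g (9 / 2) := by
      rw [lt_g_iff (by norm_num)]; norm_num
    have hphi : phi (9 / 2) = 1 := phi_one (by norm_num)
    simp [hphi]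
    constructor <;> linarith
  have hmain : ∀ P ∈ W, ∀ t : ℝ, front room nu P t ∩ U = ∅ := by
    intro P hP t
    rw [eq_empty_iff_forall_notMem]
    rintro q ⟨⟨v, w, _, hph⟩, _, hq1, hq0⟩
    have hgood := photon_good (Or.inl ⟨hP.2.1.le, hP.2.2⟩) hph
    rcases hgood with ⟨_, h⟩ | ⟨h, _⟩ | ⟨h, _⟩
    · have := (abs_lt.1 h).2
      linarith
    · linarith
    · linarith
  refine ⟨room, nu, room_isOpen, room_connected, room_bounded, room_smooth,
    ⟨W, U, hWo, hWne, fun p hp => hp.1, hUo, hUne, fun p hp => hp.1, hmain⟩, ?_⟩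
  have hsub : W ⊆ {P ∈ room | ¬ FrontsBecomeDense room nu P} := by
    intro P hP
    refine ⟨hP.1, fun h => ?_⟩
    obtain ⟨T, hT⟩ := h U hUo hUne fun p hp => hp.1
    have := hT T le_rfl
    rw [hmain P hP T] at this
    simp at this
  exact (hWo.measure_pos volume hWne).trans_le (measure_mono hsub)

end Pool.Agent.Results.MP_67b65f_an.Disproof
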